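import Mathlib

/-! Associativity of the homogenisation for linear forms, and transitivity of conjugacy. -/

set_option autoImplicit false

namespace Pool.Agent.X104.TAU

open Finset Polynomial

variable {A : Type*} [CommRing A]

/-- `Q ^ d F (P / Q)` (as `Pool.Agent.X328.GN.hm`) -/
noncomputable def hm (d : ℕ) (F P Q : A[X]) : A[X] :=
  ∑ i ∈ range (d + 1), C (F.coeff i) * P ^ i * Q ^ (d - i)

theorem hm_add (d : ℕ) (F G P Q : A[X]) : hm d (F + G) P Q = hm d F P Q + hm d G P Q := by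
  unfold hm
  rw [← sum_add_distrib]
  refine sum_congr rfl fun i _ => ?_
  rw [coeff_add, C_add]; ring

theorem hm_C_mul (d : ℕ) (c : A) (F P Q : A[X]) : hm d (C c * F) P Q = C c * hm d F P Q := by
  unfold hm
  rw [mul_sum]
  refine sum_congr rfl fun i _ => ?_
  rw [coeff_C_mul, C_mul]; ring

theorem hm_zero (d : ℕ) (P Q : A[X]) : hm d 0 P Q = 0 := by
  unfold hm
  refine sum_eq_zero fun i _ => ?_
  rw [coeff_zero, C_0]; ring

theorem hm_sum {ι : Type*} (s : Finset ι) (d : ℕ) (F : ι → A[X]) (P Q : A[X]) :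
    hm d (∑ i ∈ s, F i) P Q = ∑ i ∈ s, hm d (F i) P Q := by
  classical
  induction s using Finset.induction_on with
  | empty => rw [sum_empty, sum_empty, hm_zero]
  | insert a s ha ih => rw [sum_insert ha, sum_insert ha, hm_add, ih]

theorem hm_X_pow {d k : ℕ} (hk : k ≤ d) (P Q : A[X]) :
    hm d (X ^ k) P Q = P ^ k * Q ^ (d - k) := by
  unfold hm
  rw [sum_eq_single k]
  · rw [coeff_X_pow, if_pos rfl, C_1, one_mul]
  · intro i _ hi
    rw [coeff_X_pow, if_neg hi, C_0]; ring
  · intro h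
    exact absurd (mem_range.mpr (by lia)) h

theorem hm_CX {d k : ℕ} (hk : k ≤ d) (c : A) (P Q : A[X]) :
    hm d (C c * X ^ k) P Q = C c * P ^ k * Q ^ (d - k) := by
  rw [hm_C_mul, hm_X_pow hk]; ring

/-- multiplicativity -/
theorem hm_mul {m n : ℕ} {F G : A[X]} (hF : F.natDegree ≤ m) (hG : G.natDegree ≤ n) (P Q : A[X]) :
    hm (m + n) (F * G) P Q = hm m F P Q * hm n G P Q := by
  have eF : F = ∑ i ∈ range (m + 1), C (F.coeff i) * X ^ i :=
    as_sum_range_C_mul_X_pow' F (Nat.lt_succ_of_le hF)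
  have eG : G = ∑ j ∈ range (n + 1), C (G.coeff j) * X ^ j :=
    as_sum_range_C_mul_X_pow' G (Nat.lt_succ_of_le hG)
  have e1 : F * G = ∑ i ∈ range (m + 1), ∑ j ∈ range (n + 1),
      C (F.coeff i * G.coeff j) * X ^ (i + j) := by
    conv_lhs => rw [eF, eG]
    rw [sum_mul_sum]
    refine sum_congr rfl fun i _ => sum_congr rfl fun j _ => ?_
    rw [C_mul, pow_add]; ring
  rw [e1, hm_sum]
  have e2 : hm m F P Q * hm n G P Q = ∑ i ∈ range (m + 1), ∑ j ∈ range (n + 1),
      (C (F.coeff i) * P ^ i * Q ^ (m - i)) * (C (G.coeff j) * P ^ j * Q ^ (n - j)) := by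
    unfold hm
    rw [sum_mul_sum]
  rw [e2]
  refine sum_congr rfl fun i hi => ?_
  rw [hm_sum]
  refine sum_congr rfl fun j hj => ?_
  have hi' : i ≤ m := Nat.lt_succ_iff.mp (mem_range.mp hi)
  have hj' : j ≤ n := Nat.lt_succ_iff.mp (mem_range.mp hj)
  rw [hm_CX (by lia : i + j ≤ m + n), C_mul, show m + n - (i + j) = (m - i) + (n - j) by lia,
    pow_add, pow_add]
  ring

theorem hm_one_zero (P Q : A[X]) : hm 0 (1 : A[X]) P Q = 1 := by
  unfold hm; simp

theorem hm_lin (a b : A) (P Q : A[X]) : hm 1 (C a * X + C b) P Q = C a * P + C b * Q := by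
  have h1 : (C a * X + C b : A[X]) = C a * X ^ 1 + C b * X ^ 0 := by rw [pow_one, pow_zero, mul_one]
  rw [h1, hm_add, hm_CX le_rfl, hm_CX (Nat.zero_le 1)]
  simp

theorem hm_lin_pow (a b : A) (P Q : A[X]) (i : ℕ) :
    hm i ((C a * X + C b) ^ i) P Q = (C a * P + C b * Q) ^ i := by
  induction i with
  | zero => rw [pow_zero, pow_zero, hm_one_zero]
  | succ i ih =>
    have h1 : ((C a * X + C b : A[X]) ^ i).natDegree ≤ i := by
      refine natDegree_pow_le.trans ?_
      have := natDegree_linear_le (a := a) (b := b)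
      nlinarith
    rw [pow_succ, pow_succ, hm_mul h1 natDegree_linear_le, ih, hm_lin]

/-- associativity for linear forms -/
theorem hm_assoc (d : ℕ) (F : A[X]) (a b c e : A) (P Q : A[X]) :
    hm d (hm d F (C a * X + C b) (C c * X + C e)) P Q =
      hm d F (C a * P + C b * Q) (C c * P + C e * Q) := by
  conv_lhs => rw [show hm d F (C a * X + C b) (C c * X + C e) = ∑ i ∈ range (d + 1),
    C (F.coeff i) * ((C a * X + C b) ^ i * (C c * X + C e) ^ (d - i)) from
      sum_congr rfl fun i _ => by rw [mul_assoc]]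
  rw [hm_sum]
  refine sum_congr rfl fun i hi => ?_
  have hi' : i ≤ d := Nat.lt_succ_iff.mp (mem_range.mp hi)
  have h1 : ((C a * X + C b : A[X]) ^ i).natDegree ≤ i := by
    refine natDegree_pow_le.trans ?_
    have := natDegree_linear_le (a := a) (b := b)
    nlinarith
  have h2 : ((C c * X + C e : A[X]) ^ (d - i)).natDegree ≤ d - i := by
    refine natDegree_pow_le.trans ?_
    have := natDegree_linear_le (a := c) (b := e)
    nlinarith
  rw [hm_C_mul]
  have h3 := hm_mul h1 h2 P Q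
  rw [show i + (d - i) = d by lia] at h3
  rw [h3, hm_lin_pow, hm_lin_pow, mul_assoc]

theorem hm_scale (d : ℕ) (F P Q : A[X]) (t : A) :
    hm d F (C t * P) (C t * Q) = C (t ^ d) * hm d F P Q := by
  unfold hm
  rw [mul_sum]
  refine sum_congr rfl fun i hi => ?_
  have hi' : i ≤ d := Nat.lt_succ_iff.mp (mem_range.mp hi)
  rw [mul_pow, mul_pow]
  have : (C (t ^ d) : A[X]) = C t ^ i * C t ^ (d - i) := by
    rw [← pow_add, show i + (d - i) = d by lia, C_pow]
  rw [this]; ring

theorem trans_conj {K : Type*} [Field K] (d : ℕ) (p q p' q' u w : K[X])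
    (h : ∃ a b c e : K, a * e - b * c ≠ 0 ∧ ∃ s : K, s ≠ 0 ∧
      hm d u (C a * X + C b) (C c * X + C e) = C s * (C a * p + C b * q) ∧
      hm d w (C a * X + C b) (C c * X + C e) = C s * (C c * p + C e * q))
    (h' : ∃ a b c e : K, a * e - b * c ≠ 0 ∧ ∃ s : K, s ≠ 0 ∧
      hm d u (C a * X + C b) (C c * X + C e) = C s * (C a * p' + C b * q') ∧
      hm d w (C a * X + C b) (C c * X + C e) = C s * (C c * p' + C e * q')) :
    ∃ a b c e : K, a * e - b * c ≠ 0 ∧ ∃ s : K, s ≠ 0 ∧
      hm d p' (C a * X + C b) (C c * X + C e) = C s * (C a * p + C b * q) ∧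
      hm d q' (C a * X + C b) (C c * X + C e) = C s * (C c * p + C e * q) := by
  obtain ⟨a, b, c, e, hdet, s, hs, hu, hw⟩ := h
  obtain ⟨a', b', c', e', hdet', s', hs', hu', hw'⟩ := h'
  set D : K := a' * e' - b' * c' with hD
  set α : K := e' * a - b' * c with hα
  set β : K := e' * b - b' * e with hβ
  set γ : K := -(c' * a) + a' * c with hγ
  set ε : K := -(c' * b) + a' * e with hε
  have hdet2 : α * ε - β * γ = D * (a * e - b * c) := by rw [hα, hβ, hγ, hε, hD]; ring
  set P : K[X] := C α * X + C β with hP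
  set Q : K[X] := C γ * X + C ε with hQ
  have hl1 : C a' * P + C b' * Q = C D * (C a * X + C b) := by
    rw [hP, hQ, hα, hβ, hγ, hε, hD]
    simp only [C_sub, C_add, C_mul, C_neg]
    ring
  have hl2 : C c' * P + C e' * Q = C D * (C c * X + C e) := by
    rw [hP, hQ, hα, hβ, hγ, hε, hD]
    simp only [C_sub, C_add, C_mul, C_neg]
    ring
  have hU : hm d (C s' * (C a' * p' + C b' * q')) P Q = C (D ^ d) * (C s * (C a * p + C b * q)) := by
    rw [← hu', hm_assoc, hl1, hl2, hm_scale, hu]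
  have hW : hm d (C s' * (C c' * p' + C e' * q')) P Q = C (D ^ d) * (C s * (C c * p + C e * q)) := by
    rw [← hw', hm_assoc, hl1, hl2, hm_scale, hw]
  have hsD : s' * D ≠ 0 := mul_ne_zero hs' hdet'
  have hp : C (s' * D) * hm d p' P Q = C (D ^ d * s) * (C α * p + C β * q) := by
    have e1 : C (s' * D) * p' = C e' * (C s' * (C a' * p' + C b' * q')) +
        C (-b') * (C s' * (C c' * p' + C e' * q')) := by
      rw [hD]; simp only [C_sub, C_mul, C_neg]; ring
    rw [← hm_C_mul, e1, hm_add, hm_C_mul d e', hm_C_mul d (-b'), hU, hW, hα, hβ]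
    simp only [C_sub, C_mul, C_neg]
    ring
  have hq : C (s' * D) * hm d q' P Q = C (D ^ d * s) * (C γ * p + C ε * q) := by
    have e1 : C (s' * D) * q' = C (-c') * (C s' * (C a' * p' + C b' * q')) +
        C a' * (C s' * (C c' * p' + C e' * q')) := by
      rw [hD]; simp only [C_sub, C_mul, C_neg]; ring
    rw [← hm_C_mul, e1, hm_add, hm_C_mul d (-c'), hm_C_mul d a', hU, hW, hγ, hε]
    simp only [C_add, C_mul, C_neg]
    ring
  have inv : ∀ F G : K[X], C (s' * D) * F = C (D ^ d * s) * G →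
      F = C ((s' * D)⁻¹ * (D ^ d * s)) * G := by
    intro F G hFG
    rw [C_mul, mul_assoc, ← hFG, ← mul_assoc, ← C_mul, inv_mul_cancel₀ hsD, C_1, one_mul]
  refine ⟨α, β, γ, ε, ?_, (s' * D)⁻¹ * (D ^ d * s), ?_, inv _ _ hp, inv _ _ hq⟩
  · rw [hdet2]; exact mul_ne_zero hdet' hdet
  · exact mul_ne_zero (inv_ne_zero hsD) (mul_ne_zero (pow_ne_zero d hdet') hs)

end Pool.Agent.X104.TAU
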