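import Pool.Agent.X328.TAU.Stm2
import Pool.Agent.X104.TAU.Alg

set_option autoImplicit false

namespace Pool.Agent.X104.TAU

universe u

theorem t_TR : Pool.Agent.X328.TAU.S_TR.{u} := by
  intro K _ d p q p' q' u w _ _ _ _ _ _ h h'
  exact trans_conj d p q p' q' u w h h'

end Pool.Agent.X104.TAU
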